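import Pool.Agent.Helper88.QR.StmtsB

/-!
# Row B07: a closed interval of corners is the contour of a tree
-/

set_option autoImplicit false

namespace QRB

open QR

theorem oneCyc_on {C : Type} [Fintype C] {τ : Equiv.Perm C} (h : OneCyc τ) :
    τ.IsCycleOn (Finset.univ : Finset C) :=
  ⟨by simpa using τ.bijective.bijOn_univ, fun x _ y _ => h x y⟩

theorem oneCyc_inj {C : Type} [Finite C] {τ : Equiv.Perm C} (h : OneCyc τ) (x : C) {i j : ℕ}
    (hi : i < Nat.card C) (hj : j < Nat.card C) (e : (τ ^ i) x = (τ ^ j) x) : i = j := by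
  classical
  have := Fintype.ofFinite C
  rw [(oneCyc_on h).pow_apply_eq_pow_apply (Finset.mem_univ x)] at e
  rw [Nat.card_eq_fintype_card] at hi hj
  have e' : i ≡ j [MOD Fintype.card C] := e
  unfold Nat.ModEq at e'
  rwa [Nat.mod_eq_of_lt hi, Nat.mod_eq_of_lt hj] at e'

theorem st_B07 (hB05 : ST_B05) : ST_B07 := by
  intro C V F _ _ _ τ α lab vt fc O hL k
  induction k using Nat.strong_induction_on with
  | _ k ih =>
    intro a hk hc
    rcases Nat.eq_zero_or_pos k with rfl | hkpos
    · exact ⟨LT.nil, by simpa using Enc.nil a, rfl⟩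
    obtain ⟨hfa, j, hjk, hj⟩ := hc 0 hkpos
    simp only [pow_zero, Equiv.Perm.coe_one, id_eq] at hfa hj
    obtain ⟨hinv, hne⟩ := hL.inv a hfa
    have hj0 : 1 ≤ j := by
      rcases Nat.eq_zero_or_pos j with rfl | h
      · exact absurd (by simpa using hj) hne
      · exact h
    have hcut := hB05 C V F τ α lab vt fc O hL a j hj0 (by omega) hj
    have hstep : ∀ i : ℕ, (τ ^ i) (τ a) = (τ ^ (i + 1)) a := by
      intro i
      rw [pow_succ]; rfl
    have hadd : ∀ i l : ℕ, (τ ^ i) ((τ ^ l) a) = (τ ^ (i + l)) a := by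
      intro i l
      rw [pow_add]; rfl
    -- the first interval
    obtain ⟨t1, h1, e1⟩ := ih (j - 1) (by omega) (τ a) (by omega) (by
      intro i hi
      rw [hstep]
      refine ⟨(hc (i + 1) (by omega)).1, ?_⟩
      obtain ⟨i', h1, h2, h3⟩ := hcut (i + 1) (by omega) (by omega)
      refine ⟨i' - 1, by omega, ?_⟩
      rw [hstep, h3]
      congr 2
      omega)
    -- the second interval
    have hτα : τ (α a) = (τ ^ (j + 1)) a := by rw [hj, pow_succ']; rfl
    obtain ⟨t2, h2, e2⟩ := ih (k - j - 1) (by omega) (τ (α a)) (by omega) (by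
      intro i hi
      rw [hτα, hadd]
      obtain ⟨hf, l, hl, hl'⟩ := hc (i + (j + 1)) (by omega)
      refine ⟨hf, ?_⟩
      have hα := (hL.inv _ hf).1
      rw [hl'] at hα
      have hlj : j + 1 ≤ l := by
        by_contra hlt
        rcases Nat.lt_trichotomy l j with hlt' | rfl | hgt
        · rcases Nat.eq_zero_or_pos l with rfl | hl0
          · simp only [pow_zero, Equiv.Perm.coe_one, id_eq] at hα
            rw [hj] at hα
            have := oneCyc_inj hL.cyc a (by omega) (by omega) hα
            omega
          · obtain ⟨l', h3, h4, h5⟩ := hcut l hl0 hlt'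
            rw [h5] at hα
            have := oneCyc_inj hL.cyc a (by omega) (by omega) hα
            omega
        · rw [← hj, hinv] at hα
          have : (τ ^ 0) a = (τ ^ (i + (l + 1))) a := by simpa using hα
          have := oneCyc_inj hL.cyc a (by omega) (by omega) this
          omega
        · omega
      refine ⟨l - (j + 1), by omega, ?_⟩
      rw [hadd, hl']
      congr 2
      omega)
    have hlabα : lab (τ a) = lab (α a) := hL.lab_vt _ _ (hL.vt_eq a)
    have hlabα' : lab (τ (α a)) = lab a := by
      rw [hL.lab_vt _ _ (hL.vt_eq (α a)), hinv]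
    have hd1 := hL.down a
    have hd2 := hL.down (α a)
    rw [hlabα', ← hlabα] at hd2
    refine ⟨LT.cons ⟨lab (τ a) + 1 - lab a, by omega⟩ t1 t2, ?_, ?_⟩
    · refine Enc.cons a _ _ t1 t2 ?_ hinv ?_ ?_ ?_
      · intro h
        have h' : (τ ^ 0) a = (τ ^ k) a := by simpa using h
        have := oneCyc_inj hL.cyc a (by omega) hk h'
        omega
      · show (lab (τ a) : ℤ) = LT.ch (lab a) _
        simp only [LT.ch]
        push_cast [Nat.cast_sub (show lab a ≤ lab (τ a) + 1 from hd1)]
        ring
      · have : (τ ^ (j - 1)) (τ a) = α a := by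
          rw [hstep, hj]; congr 2; omega
        rwa [this] at h1
      · have : (τ ^ (k - j - 1)) (τ (α a)) = (τ ^ k) a := by
          rw [hτα, hadd]; congr 2; omega
        rwa [this] at h2
    · simp only [LT.edges]
      omega

end QRB
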