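import Pool.Agent.Helper88.QR.StmtsB

/-!
# Row B18: two rooted maps with the same code are isomorphic
-/

set_option autoImplicit false

namespace QRB

open QR Classical

theorem st_B18 (hB04 : ST_B04) (hB13 : ST_B13) (hB14 : ST_B14) : ST_B18 := by
  intro D D' _ _ m m' o o' N P lam lam' v0 v0' τ α τ' α' T hP hQ hQ' hL hL' hz hz' hM hM' hlab hT hT'
  obtain ⟨hc1, -, hc2, -⟩ := hB04 D m o N P lam v0 τ α hP hQ hL hz hM
  obtain ⟨hc1', -, -, -⟩ := hB04 D' m' o' N P lam' v0' τ' α' hP hQ' hL' hz' hM'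
  -- labels along the face
  have hface : ∀ d, lam (m.face d) = lam (m.opp d) := fun d => hL.rot _
  have hface' : ∀ d, lam' (m'.face d) = lam' (m'.opp d) := fun d => hL'.rot _
  have hs : ∀ i : ℤ, m.face ((m.face ^ i) o) = (m.face ^ (i + 1)) o := by
    intro i
    rw [add_comm, zpow_add, zpow_one]; rfl
  have hs' : ∀ i : ℤ, m'.face ((m'.face ^ i) o') = (m'.face ^ (i + 1)) o' := by
    intro i
    rw [add_comm, zpow_add, zpow_one]; rfl
  have hdes : ∀ i : ℤ, Des m lam ((m.face ^ i) o) ↔ Des m' lam' ((m'.face ^ i) o') := by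
    intro i
    unfold Des
    rw [← hface, ← hface', hs, hs', hlab, hlab]
  have hnat : ∀ (i : ℤ) (k : ℕ), (m.face ^ k) ((m.face ^ i) o) = (m.face ^ (i + k)) o := by
    intro i k
    rw [add_comm, zpow_add, zpow_natCast]; rfl
  have hnat' : ∀ (i : ℤ) (k : ℕ), (m'.face ^ k) ((m'.face ^ i) o') = (m'.face ^ (i + k)) o' := by
    intro i k
    rw [add_comm, zpow_add, zpow_natCast]; rfl
  -- the next down time
  have hnx : ∀ i : {i : ℤ // Des m lam ((m.face ^ i) o)},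
      ∃ i' : {i : ℤ // Des m lam ((m.face ^ i) o)},
        α ⟨(m.face ^ i.1) o, i.2⟩ = ⟨(m.face ^ i'.1) o, i'.2⟩ ∧
        α' ⟨(m'.face ^ i.1) o', (hdes _).mp i.2⟩ = ⟨(m'.face ^ i'.1) o', (hdes _).mp i'.2⟩ := by
    rintro ⟨i, hi⟩
    obtain ⟨k, hk0, hk1, hk2, hk3⟩ := hM.ha ⟨(m.face ^ i) o, hi⟩
    obtain ⟨k', hk0', hk1', hk2', hk3'⟩ := hM'.ha ⟨(m'.face ^ i) o', (hdes _).mp hi⟩
    simp only at hk1 hk3 hk1' hk3'
    rw [hnat] at hk1
    rw [hnat'] at hk1'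
    have hkk : k = k' := by
      rcases Nat.lt_trichotomy k k' with h | h | h
      · exfalso
        apply hk3' k hk0 h
        rw [hnat', ← hdes, hk1]
        exact hk2
      · exact h
      · exfalso
        apply hk3 k' hk0' h
        rw [hnat, hdes, hk1']
        exact hk2'
    subst hkk
    refine ⟨⟨i + k, by rw [hk1]; exact hk2⟩, ?_, ?_⟩
    · apply Subtype.ext
      exact hk1.symm
    · apply Subtype.ext
      exact hk1'.symm
  choose nx hnx1 hnx2 using hnx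
  -- a down time
  obtain ⟨i0⟩ : Nonempty {i : ℤ // Des m lam ((m.face ^ i) o)} := by
    have : Nonempty {c : Dn m lam // m.fc c.1 = m.fc o} := by
      by_contra hne
      rw [not_nonempty_iff] at hne
      rw [Nat.card_of_isEmpty] at hc2
      omega
    obtain ⟨⟨c, hc⟩⟩ := this
    have hsc : m.face.SameCycle c.1 o := Quotient.exact hc
    obtain ⟨i, hi⟩ := hsc.symm
    exact ⟨⟨i, by rw [hi]; exact c.2⟩⟩
  let tm : ℕ → {i : ℤ // Des m lam ((m.face ^ i) o)} := fun j => nx^[j] i0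
  have htm : ∀ j, tm (j + 1) = nx (tm j) := fun j => Function.iterate_succ_apply' nx j i0
  let β : ℕ → Dn m lam := fun j => ⟨(m.face ^ (tm j).1) o, (tm j).2⟩
  let β' : ℕ → Dn m' lam' := fun j => ⟨(m'.face ^ (tm j).1) o', (hdes _).mp (tm j).2⟩
  have hαβ : ∀ j, α (β j) = β (j + 1) := by
    intro j
    show α ⟨(m.face ^ (tm j).1) o, (tm j).2⟩ = ⟨(m.face ^ (tm (j + 1)).1) o, (tm (j + 1)).2⟩
    rw [hnx1 (tm j)]
    simp only [htm]
  have hαβ' : ∀ j, α' (β' j) = β' (j + 1) := by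
    intro j
    show α' ⟨(m'.face ^ (tm j).1) o', (hdes _).mp (tm j).2⟩ =
      ⟨(m'.face ^ (tm (j + 1)).1) o', (hdes _).mp (tm (j + 1)).2⟩
    rw [hnx2 (tm j)]
    simp only [htm]
  letI : Fintype (Dn m lam) := Fintype.ofFinite _
  letI : Fintype (Dn m' lam') := Fintype.ofFinite _
  obtain ⟨Ψ, hΨ0, hΨτ, hΨα, hΨl⟩ := hB13 (Dn m lam) (Dn m' lam') τ α (lb m lam) τ' α' (lb m' lam')
    β β' (fun j => T (tm (j + 1)).1) (by
      rw [← Nat.card_eq_fintype_card, ← Nat.card_eq_fintype_card, hc1, hc1']) hM.cyc hM'.cyc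
    hM.ve hM'.ve hαβ hαβ' (fun j => hlab _) (by
      intro j
      have h := hT (tm (j + 1)).1 (tm (j + 1)).2
      have h1 : α⁻¹ (β (j + 1)) = β j := by rw [← hαβ j]; simp
      have h2 : (⟨(m.face ^ (tm (j + 1)).1) o, (tm (j + 1)).2⟩ : Dn m lam) = β (j + 1) := rfl
      rw [h2, h1] at h
      exact h) (by
      intro j
      have h := hT' (tm (j + 1)).1 ((hdes _).mp (tm (j + 1)).2)
      have h1 : α'⁻¹ (β' (j + 1)) = β' j := by rw [← hαβ' j]; simp
      have h2 : (⟨(m'.face ^ (tm (j + 1)).1) o', (hdes _).mp (tm (j + 1)).2⟩ : Dn m' lam') =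
        β' (j + 1) := rfl
      rw [h2, h1] at h
      exact h)
  obtain ⟨Φ, hΦr, hΦo, hΦc, hΦl⟩ := hB14 D D' m m' lam lam' τ α τ' α' hL hL' hM hM' Ψ hΨτ hΨα hΨl
  refine ⟨Φ, hΦr, hΦo, ?_, hΦl⟩
  have hΦf : ∀ d, Φ (m.face d) = m'.face (Φ d) := by
    intro d
    show Φ (m.rot (m.opp d)) = m'.rot (m'.opp (Φ d))
    rw [hΦr, hΦo]
  have hΦf1 : ∀ d, Φ (m.face⁻¹ d) = m'.face⁻¹ (Φ d) := by
    intro d
    rw [Equiv.Perm.eq_inv_iff_eq, ← hΦf]
    simp
  have hΦz : ∀ (i : ℤ) d, Φ ((m.face ^ i) d) = (m'.face ^ i) (Φ d) := by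
    intro i
    induction i using Int.induction_on with
    | zero => intro d; simp
    | succ i ih =>
      intro d
      rw [zpow_add_one, zpow_add_one]
      show Φ ((m.face ^ (i : ℤ)) (m.face d)) = (m'.face ^ (i : ℤ)) (m'.face (Φ d))
      rw [ih, hΦf]
    | pred i ih =>
      intro d
      rw [zpow_sub_one, zpow_sub_one]
      show Φ ((m.face ^ (-(i : ℤ))) (m.face⁻¹ d)) = (m'.face ^ (-(i : ℤ))) (m'.face⁻¹ (Φ d))
      rw [ih, hΦf1]
  have h0 : Φ ((m.face ^ (tm 0).1) o) = (m'.face ^ (tm 0).1) o' := by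
    have := hΦc (β 0)
    rw [hΨ0] at this
    exact this
  rw [hΦz] at h0
  exact (m'.face ^ (tm 0).1).injective h0

end QRB
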