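import Pool.Agent.Helper98.QR.StmtsE

/-!
# Project QR, row E19: estimates in the disjoint union
-/

namespace QRE19

open QR

theorem finite_rmap (D : Type) [Finite D] : Finite (RMap D) := by
  refine Finite.of_injective (fun m : RMap D => (m.rot, m.opp)) ?_
  intro a b h
  exact RMap.ext (congrArg Prod.fst h) (congrArg Prod.snd h)

theorem sum_pairs {A : Type} [Fintype A] (f : A → ℝ) :
    ∑ z : A × A, (f z.1 + f z.2) = 2 * (Fintype.card A * ∑ x, f x) := by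
  rw [Fintype.sum_prod_type]
  simp only [Finset.sum_add_distrib, Finset.sum_const, Finset.card_univ, nsmul_eq_mul,
    ← Finset.mul_sum]
  ring

open Classical in
theorem sum_le {n p : ℕ} [Fintype {x // x ∈ SQ n p}] (hne : (SQ n p).Nonempty) {K : ℝ}
    (X : (D : Type) → RMap D → D → ℝ) (h : avS n p X ≤ K * p) :
    ∑ x : {x // x ∈ SQ n p}, X _ x.1.1 x.1.2 ≤ Fintype.card {x // x ∈ SQ n p} * (K * p) := by
  unfold avS at h
  rw [Nat.card_eq_fintype_card] at h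
  have : Nonempty {x // x ∈ SQ n p} := hne.to_subtype
  have hpos : (0 : ℝ) < Fintype.card {x // x ∈ SQ n p} := by exact_mod_cast Fintype.card_pos
  rw [div_le_iff₀ hpos] at h
  have e : ∑ᶠ (x) (_ : x ∈ SQ n p), X _ x.1 x.2 = ∑ x : {x // x ∈ SQ n p}, X _ x.1.1 x.1.2 := by
    rw [← finsum_eq_sum_of_fintype]
    exact (finsum_set_coe_eq_finsum_mem (SQ n p)).symm
  rw [e] at h
  linarith [mul_comm (Fintype.card {x // x ∈ SQ n p} : ℝ) (K * p)]

open Classical in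
/-- E19: estimates in the disjoint union -/
theorem st_E19 (hE12 : ST_E12) (hE13 : ST_E13) : ST_E19 := by
  intro n p K hn hp hK hne instU S hS
  have : Finite (RMap (Fin (4 * n + 2 * p))) := finite_rmap _
  have hV : ∀ m : RMap (Fin (4 * n + 2 * p)), Finite m.Vert := fun m => inferInstance
  let instA : Fintype {x // x ∈ SQ n p} := Fintype.ofFinite _
  let instF : Fintype ({x // x ∈ SQ n p} × {x // x ∈ SQ n p}) := inferInstance
  let instV : ∀ z : {x // x ∈ SQ n p} × {x // x ∈ SQ n p},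
      Fintype (z.1.1.1.Vert ⊕ z.2.1.1.Vert) := fun z => Fintype.ofFinite _
  obtain rfl : instU = @Sigma.instFintype ({x // x ∈ SQ n p} × {x // x ∈ SQ n p})
    (fun z => z.1.1.1.Vert ⊕ z.2.1.1.Vert) instV instF := Subsingleton.elim _ _
  obtain ⟨-, -, hnear, hdeg, -⟩ := hE12 ({x // x ∈ SQ n p} × {x // x ∈ SQ n p})
    (fun z => z.1.1.1.Vert ⊕ z.2.1.1.Vert) (fun z => gl z.1.1.1 z.1.1.2 z.2.1.1 z.2.1.2)
  obtain ⟨Sz, hSz⟩ : ∃ Sz : ∀ z : {x // x ∈ SQ n p} × {x // x ∈ SQ n p},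
      Finset (z.1.1.1.Vert ⊕ z.2.1.1.Vert), ∀ z v, v ∈ Sz z ↔
        ∃ i : ℤ, v = Sum.inl ((z.1.1.1.bg z.1.1.2).b i) :=
    ⟨fun z => Finset.univ.filter (fun v => ∃ i : ℤ, v = Sum.inl ((z.1.1.1.bg z.1.1.2).b i)),
      fun z v => by simp⟩
  have hSS : ∀ z v, (⟨z, v⟩ : UV n p) ∈ S ↔ v ∈ Sz z := by
    intro z v
    rw [hS, hSz]
    rfl
  have hE := fun z : {x // x ∈ SQ n p} × {x // x ∈ SQ n p} =>
    hE13 n p hn hp z.1.1 z.1.2 z.2.1 z.2.2 (Sz z) (hSz z)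
  have hSsig : S = Finset.univ.sigma Sz := by
    ext ⟨z, v⟩
    rw [hSS, Finset.mem_sigma]
    simp
  have hScard : (S.card : ℝ) =
      Fintype.card {x // x ∈ SQ n p} * (Fintype.card {x // x ∈ SQ n p} * (2 * p)) := by
    rw [hSsig, Finset.card_sigma, Finset.sum_congr rfl fun z _ => (hE z).1, Finset.sum_const,
      Finset.card_univ, Fintype.card_prod]
    rw [smul_eq_mul]
    push_cast
    ring
  have hns : ∀ (h : ℕ) (z : {x // x ∈ SQ n p} × {x // x ∈ SQ n p})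
      (v : z.1.1.1.Vert ⊕ z.2.1.1.Vert), SPR.NearSet (Uc n p) h S ⟨z, v⟩ ↔
        SPR.NearSet (gl z.1.1.1 z.1.1.2 z.2.1.1 z.2.1.2) h (Sz z) v := by
    intro h z v
    constructor
    · rintro ⟨⟨z', s⟩, hs, hv⟩
      obtain ⟨w, hw, hw'⟩ := (hnear h z' s ⟨z, v⟩).1 hv
      obtain rfl : z = z' := congrArg Sigma.fst hw
      obtain rfl : v = w := eq_of_heq (Sigma.mk.inj hw).2
      exact ⟨s, (hSS _ _).1 hs, hw'⟩
    · rintro ⟨s, hs, hv⟩
      exact ⟨⟨z, s⟩, (hSS _ _).2 hs, (hnear h z s ⟨z, v⟩).2 ⟨v, rfl, hv⟩⟩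
  have hK' : 0 ≤ (Fintype.card {x // x ∈ SQ n p} : ℝ) := by positivity
  refine ⟨fun h hav => ?_, fun s r NetCard hav hNet => ?_⟩
  · have h1 : ∑ v with SPR.NearSet (Uc n p) h S v,
        Real.exp (Real.log (13 / 12) / 2 * SPR.deg (Uc n p) v) =
        ∑ z : {x // x ∈ SQ n p} × {x // x ∈ SQ n p},
          ∑ᶠ (v) (_ : SPR.NearSet (gl z.1.1.1 z.1.1.2 z.2.1.1 z.2.1.2) h (Sz z) v),
            Real.exp (Real.log (13 / 12) / 2 *
              SPR.deg (gl z.1.1.1 z.1.1.2 z.2.1.1 z.2.1.2) v) := by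
      rw [Finset.sum_filter, Fintype.sum_sigma]
      refine Finset.sum_congr rfl fun z _ => ?_
      rw [← finsum_eq_sum_of_fintype]
      refine finsum_congr fun v => ?_
      by_cases hv : SPR.NearSet (gl z.1.1.1 z.1.1.2 z.2.1.1 z.2.1.2) h (Sz z) v
      · rw [if_pos ((hns h z v).2 hv), finsum_eq_if, if_pos hv]
        exact congrArg (fun d : ℕ => Real.exp (Real.log (13 / 12) / 2 * d)) (hdeg z v)
      · rw [if_neg (fun hh => hv ((hns h z v).1 hh)), finsum_eq_if, if_neg hv]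
    rw [h1]
    refine (Finset.sum_le_sum fun z _ => (hE z).2.1 h).trans ?_
    rw [← Finset.mul_sum]
    have h2 := sum_pairs (fun x : {x // x ∈ SQ n p} => Fdeg h _ x.1.1 x.1.2)
    have h3 := sum_le hne (Fdeg h) hav
    rw [h2, hScard]
    have h4 := mul_le_mul_of_nonneg_left h3 hK'
    linarith
  · have hc : ∀ x : {x // x ∈ SQ n p}, ∃ Net : Set x.1.1.Vert,
        (Nat.card Net : ℝ) ≤ NetCard _ x.1.1 x.1.2 ∧
        ∀ v, NB x.1.1 x.1.2 s v → ∃ z ∈ Net, SPR.Near x.1.1.mult r v z :=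
      fun x => hNet x.1 x.2
    choose Nx hNx1 hNx2 using hc
    have hc2 : ∀ z : {x // x ∈ SQ n p} × {x // x ∈ SQ n p},
        ∃ Net : Finset (z.1.1.1.Vert ⊕ z.2.1.1.Vert),
          Net.card ≤ Nat.card (Nx z.1) + Nat.card (Nx z.2) ∧
          ∀ v, SPR.NearSet (gl z.1.1.1 z.1.1.2 z.2.1.1 z.2.1.2) s (Sz z) v → ∃ w ∈ Net,
            SPR.Near (gl z.1.1.1 z.1.1.2 z.2.1.1 z.2.1.2) r v w :=
      fun z => (hE z).2.2 s r (Nx z.1) (Nx z.2) (hNx2 z.1) (hNx2 z.2)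
    choose Nz hNz1 hNz2 using hc2
    refine ⟨Finset.univ.sigma Nz, ?_, ?_⟩
    · rw [Finset.card_sigma, Nat.cast_sum]
      have h5 : ∀ z : {x // x ∈ SQ n p} × {x // x ∈ SQ n p}, ((Nz z).card : ℝ) ≤
          NetCard _ z.1.1.1 z.1.1.2 + NetCard _ z.2.1.1 z.2.1.2 := by
        intro z
        have : ((Nz z).card : ℝ) ≤ Nat.card (Nx z.1) + Nat.card (Nx z.2) := by
          exact_mod_cast hNz1 z
        linarith [hNx1 z.1, hNx1 z.2]
      refine (Finset.sum_le_sum fun z _ => h5 z).trans ?_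
      have h2 := sum_pairs (fun x : {x // x ∈ SQ n p} => NetCard _ x.1.1 x.1.2)
      have h3 := sum_le hne NetCard hav
      rw [h2, hScard]
      have h4 := mul_le_mul_of_nonneg_left h3 hK'
      linarith
    · rintro ⟨z, v⟩ hv
      obtain ⟨w, hw, hvw⟩ := hNz2 z v ((hns s z v).1 hv)
      exact ⟨⟨z, w⟩, Finset.mem_sigma.2 ⟨Finset.mem_univ _, hw⟩,
        (hnear r z v ⟨z, w⟩).2 ⟨w, rfl, hvw⟩⟩

end QRE19
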