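import Pool.Agent.Helper98.QR.StmtsS

/-!
# Project QR, row S09: nets at scale `t`
-/

namespace QRS09

open QR

theorem near_mono {V : Type} {c : V → V → ℕ} {r s : ℕ} {x y : V} (hrs : r ≤ s)
    (h : SPR.Near c r x y) : SPR.Near c s x y := by
  induction s, hrs using Nat.le_induction with
  | base => exact h
  | succ n hn ih => exact Or.inl ih

theorem near_refl {V : Type} {c : V → V → ℕ} (r : ℕ) (x : V) : SPR.Near c r x x :=
  near_mono (Nat.zero_le r) rfl

/-- the number of boundary vertices is at most the degree of the outer face -/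
theorem card_boundary {D : Type} [Finite D] (m : RMap D) (o : D) :
    Nat.card (Set.range fun i : ℤ => m.tail ((m.face ^ i) o)) ≤ m.fdeg o := by
  classical
  unfold RMap.fdeg
  refine Nat.card_le_card_of_surjective
    (fun d : {d' : D // m.face.SameCycle o d'} =>
      (⟨m.tail d.1, by obtain ⟨i, hi⟩ := d.2; exact ⟨i, by simp only [hi]⟩⟩ :
        Set.range fun i : ℤ => m.tail ((m.face ^ i) o))) ?_
  rintro ⟨v, i, rfl⟩
  exact ⟨⟨(m.face ^ i) o, ⟨i, rfl⟩⟩, rfl⟩

open Classical in
/-- S09: nets -/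
theorem st_S09 (hS01 : ST_S01) : ST_S09 := by
  intro D _ m o n p t hp ht hq
  obtain ⟨-, hsym, hadd, -⟩ := hS01 D m
  have hfin : Finite m.Vert := inferInstance
  by_cases ht8 : t < 8
  · refine ⟨{v | NB m o (t ^ 35) v}, fun v hv => ⟨v, hv, near_refl _ _⟩, fun _ => ?_,
      fun h => absurd h (not_le.2 ht8)⟩
    unfold Ftube
    have hle : Nat.card {v | NB m o (t ^ 35) v} ≤ Nat.card {v : m.Vert // NB m o (hh t) v} := by
      refine Nat.card_le_card_of_injective
        (fun v : {v | NB m o (t ^ 35) v} => (⟨v.1, by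
          obtain ⟨i, hi⟩ := v.2
          exact ⟨i, near_mono (by unfold hh; omega) hi⟩⟩ : {v : m.Vert // NB m o (hh t) v})) ?_
      intro a b hab
      have := congrArg Subtype.val hab
      exact Subtype.ext this
    exact_mod_cast hle
  · have ht8' : 8 ≤ t := not_lt.1 ht8
    obtain ⟨s, hs⟩ : ∃ s : ℕ, s = 4 * t ^ 16 := ⟨_, rfl⟩
    have h16 : 0 < t ^ 16 := by positivity
    have hs1 : s + s ≤ t ^ 17 := by
      rw [hs, pow_succ]
      nlinarith
    let _ : Fintype m.Vert := Fintype.ofFinite _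
    set B : m.Vert → Finset m.Vert := fun z => Finset.univ.filter (fun u => SPR.Near m.mult s z u)
      with hB
    set R : Set m.Vert := {v | NB m o (t ^ 35) v ∧ t ^ 56 < (B v).card} with hR
    obtain ⟨Z, hZ⟩ := (Set.toFinite {Z : Set m.Vert | Z ⊆ R ∧
      ∀ x ∈ Z, ∀ y ∈ Z, x ≠ y → Disjoint (B x) (B y)}).exists_maximal
        ⟨∅, by simp⟩
    have hZR : Z ⊆ R := hZ.prop.1
    have hZd := hZ.prop.2
    have hmax : ∀ v ∈ R, ∃ z ∈ Z, SPR.Near m.mult (s + s) v z := by
      intro v hv
      by_contra hcon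
      push Not at hcon
      have hvZ : v ∉ Z := fun h => hcon v h (near_refl _ _)
      have hd : ∀ z ∈ Z, Disjoint (B v) (B z) := by
        intro z hz
        rw [Finset.disjoint_left]
        intro u hu hu'
        simp only [hB, Finset.mem_filter, Finset.mem_univ, true_and] at hu hu'
        exact hcon z hz (hadd _ _ _ _ _ hu (hsym _ _ _ hu'))
      have hmem : insert v Z ∈ {Z : Set m.Vert | Z ⊆ R ∧
          ∀ x ∈ Z, ∀ y ∈ Z, x ≠ y → Disjoint (B x) (B y)} := by
        refine ⟨Set.insert_subset hv hZR, ?_⟩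
        intro x hx y hy hxy
        rcases Set.mem_insert_iff.1 hx with hx1 | hx1
        · rcases Set.mem_insert_iff.1 hy with hy1 | hy1
          · exact absurd (hx1.trans hy1.symm) hxy
          · rw [hx1]
            exact hd y hy1
        · rcases Set.mem_insert_iff.1 hy with hy1 | hy1
          · rw [hy1]
            exact (hd x hx1).symm
          · exact hZd x hx1 y hy1 hxy
      exact hvZ (hZ.le_of_ge hmem (Set.subset_insert v Z) (Set.mem_insert v Z))
    set Bd : Set m.Vert := Set.range fun i : ℤ => m.tail ((m.face ^ i) o) with hBd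
    set Bad : Set m.Vert := {v : m.Vert | NB m o (hh t) v ∧ ¬ NB m o (4 * t ^ 16 - 1) v ∧
      Nat.card {u // SPR.Near m.mult (4 * t ^ 16) v u} ≤ t ^ 56} with hBad
    have hcardB : ∀ v, Nat.card {u // SPR.Near m.mult (4 * t ^ 16) v u} = (B v).card := by
      intro v
      rw [Nat.card_eq_fintype_card, Fintype.card_subtype, hB, hs]
    refine ⟨Bd ∪ Bad ∪ Z, ?_, fun h => absurd h ht8, fun _ => ?_⟩
    · intro v hv
      by_cases h1 : NB m o (4 * t ^ 16 - 1) v
      · obtain ⟨i, hi⟩ := h1
        exact ⟨m.tail ((m.face ^ i) o), Or.inl (Or.inl ⟨i, rfl⟩),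
          near_mono (by omega) (hsym _ _ _ hi)⟩
      · by_cases h2 : Nat.card {u // SPR.Near m.mult (4 * t ^ 16) v u} ≤ t ^ 56
        · refine ⟨v, Or.inl (Or.inr ⟨?_, h1, h2⟩), near_refl _ _⟩
          obtain ⟨i, hi⟩ := hv
          exact ⟨i, near_mono (by unfold hh; omega) hi⟩
        · obtain ⟨z, hz, hvz⟩ := hmax v ⟨hv, by rw [hcardB] at h2; omega⟩
          exact ⟨z, Or.inr hz, near_mono hs1 hvz⟩
    · have hc1 : Nat.card Bd ≤ 2 * p := (card_boundary m o).trans hq.outer.le
      have hc2 : (Nat.card Bad : ℝ) = Fbad t (hh t) D m o := rfl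
      have hc3 : Z.ncard * t ^ 56 ≤ Nat.card {v : m.Vert // NB m o (hh t) v} := by
        have e1 : ∑ z ∈ Z.toFinset, t ^ 56 ≤ ∑ z ∈ Z.toFinset, (B z).card :=
          Finset.sum_le_sum fun z hz => (hZR (Set.mem_toFinset.1 hz)).2.le
        rw [Finset.sum_const, smul_eq_mul, ← Set.ncard_eq_toFinset_card'] at e1
        have e2 : (Z.toFinset.biUnion B).card = ∑ z ∈ Z.toFinset, (B z).card :=
          Finset.card_biUnion fun x hx y hy hxy =>
            hZd x (Set.mem_toFinset.1 hx) y (Set.mem_toFinset.1 hy) hxy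
        have e3 : (Z.toFinset.biUnion B).card ≤ Nat.card {v : m.Vert // NB m o (hh t) v} := by
          rw [Nat.card_eq_fintype_card, Fintype.card_subtype]
          refine Finset.card_le_card fun u hu => ?_
          rw [Finset.mem_biUnion] at hu
          obtain ⟨z, hz, hzu⟩ := hu
          simp only [hB, Finset.mem_filter, Finset.mem_univ, true_and] at hzu
          obtain ⟨i, hi⟩ := (hZR (Set.mem_toFinset.1 hz)).1
          refine Finset.mem_filter.2 ⟨Finset.mem_univ _, i, ?_⟩
          have := hadd _ _ _ _ _ hi hzu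
          unfold hh
          rwa [← hs]
        omega
      have hc4 : (Z.ncard : ℝ) ≤ Ftube (hh t) D m o / (t : ℝ) ^ 56 := by
        rw [le_div_iff₀ (by positivity)]
        unfold Ftube
        exact_mod_cast hc3
      have hc5 : Nat.card (Bd ∪ Bad ∪ Z : Set m.Vert) ≤ Nat.card Bd + Nat.card Bad + Z.ncard := by
        have := Set.ncard_union_le (Bd ∪ Bad) Z
        have := Set.ncard_union_le Bd Bad
        simp only [Nat.card_coe_set_eq]
        omega
      have hc5' : (Nat.card (Bd ∪ Bad ∪ Z : Set m.Vert) : ℝ) ≤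
          Nat.card Bd + Nat.card Bad + Z.ncard := by exact_mod_cast hc5
      have hc1' : (Nat.card Bd : ℝ) ≤ 2 * p := by exact_mod_cast hc1
      linarith

end QRS09
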